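import Mathlib
import Pool.Agent.Lib.MP_dc3585_lc.Baire

open Cardinal

namespace Pool.Agent.Results.MP_dc3585_lc.BairePartitions

universe u

/-- `k` is the first place where the sequences `x` and `y` differ. -/
def FirstDiff {I : Type u} [LinearOrder I] (x y : I → Bool) (k : I) : Prop :=
  x k ≠ y k ∧ ∀ j < k, x j = y j

/-- The triple `x', y', w'` has the same initial parts of length `g` as `x, y, w`: it lies in the
basic open neighbourhood of `x, y, w` given by `g`. -/
def Above {I : Type u} [LinearOrder I] (g : I) (x y w x' y' w' : I → Bool) : Prop :=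
  ∀ j < g, x' j = x j ∧ y' j = y j ∧ w' j = w j

/-- A set `N` of triples of sequences is nowhere dense (for the topology given by initial parts):
every basic open set contains a basic open set disjoint from `N`. -/
def NowhereDense {I : Type u} [LinearOrder I]
    (N : (I → Bool) → (I → Bool) → (I → Bool) → Prop) : Prop :=
  ∀ (g : I) (x y w : I → Bool), ∃ (g' : I) (x' y' w' : I → Bool), g ≤ g' ∧
    Above g x y w x' y' w' ∧
    ∀ x'' y'' w'' : I → Bool, Above g' x' y' w' x'' y'' w'' → ¬ N x'' y'' w''

/-- The partition `c` of the triples of `S` into two classes has the Baire property (for the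
coding `e` of the elements of `S` by sequences of zeros and ones and for the order of `S`): there
are countably many nowhere dense sets `N i` such that every basic open set contains a basic open
set in which the class of `{u, v, z}` is the same for all triples `u < v < z` outside the `N i`
with `Δ(u, v) = k < l = Δ(v, z)` for which `u` (at `k`) and `v` (at `l`) turn to the same side.
Nothing is required of other triples. -/
def HasBaireProperty {I S : Type u} [LinearOrder I] [LinearOrder S] (e : S ≃ (I → Bool))
    (c : {t : Finset S // t.card = 3} → Bool) : Prop :=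
  ∃ N : ℕ → (I → Bool) → (I → Bool) → (I → Bool) → Prop, (∀ i, NowhereDense (N i)) ∧
    ∀ (g : I) (x y w : I → Bool), ∃ (g' : I) (x' y' w' : I → Bool) (b : Bool), g ≤ g' ∧
      Above g x y w x' y' w' ∧
      ∀ (t : {t : Finset S // t.card = 3}) (u v z : S) (k l : I), (t : Finset S) = {u, v, z} →
        u < v → v < z → FirstDiff (e u) (e v) k → FirstDiff (e v) (e z) l → k < l →
        e u k = e v l → Above g' x' y' w' (e u) (e v) (e z) →
        (∀ i, ¬ N i (e u) (e v) (e z)) → c t = b

/-- Let `I` be a well-order in which every countable subset has a strict upper bound (for example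
of order type `2 ^ ℵ₀`) and `S` a well-ordered set whose elements are coded by all the functions
`I → Bool` (for `#I = 2 ^ ℵ₀` this gives `#S = 2 ^ (2 ^ ℵ₀)`). For every partition of the triples
of `S` with the Baire property there are a subset `A` of cardinality `ℵ₁` and a class `i` such
that no infinite subset of `A` is homogeneous of class `i`. -/
theorem result {I S : Type u} [LinearOrder I] [WellFoundedLT I] [LinearOrder S] [WellFoundedLT S]
    (hI : ∀ D : Set I, D.Countable → ∃ m, ∀ d ∈ D, d < m) (e : S ≃ (I → Bool))
    (c : {t : Finset S // t.card = 3} → Bool) (hc : HasBaireProperty e c) :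
    ∃ A : Set S, #A = ℵ₁ ∧ ∃ i : Bool, ∀ Y : Set S, Y ⊆ A → Y.Infinite →
      ∃ t : {t : Finset S // t.card = 3}, (↑(t : Finset S) : Set S) ⊆ Y ∧ c t ≠ i := by
  obtain ⟨N, hN, h⟩ := hc
  exact Pool.Agent.Lib.MP_dc3585_lc.Baire.main hI e c N (fun i g x y w => hN i g x y w) h

end Pool.Agent.Results.MP_dc3585_lc.BairePartitions
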