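import Mathlib
import Pool.Agent.Lib.MP_dc3585_lc.Proof

open Cardinal

namespace Pool.Agent.Results.MP_dc3585_lc.TriplesBothClasses

universe u

/-- There is a partition of the triples of a set `S` of cardinality `2 ^ (2 ^ ℵ₀)` into two
classes (the two fibres of `c`) such that every subset `A` of cardinality `ℵ₁` contains, for every
finite `n` (in particular for `n = 4`) and for each of the two classes, an `n`-element set `Y`
all of whose triples lie in that class. -/
theorem result {S : Type u} (hS : #S = 2 ^ (2 ^ ℵ₀ : Cardinal.{u})) :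
    ∃ c : {t : Finset S // t.card = 3} → Bool,
      ∀ A : Set S, #A = ℵ₁ → ∀ (n : ℕ) (i : Bool),
        ∃ Y : Finset S, (↑Y : Set S) ⊆ A ∧ Y.card = n ∧
          ∀ t : {t : Finset S // t.card = 3}, (t : Finset S) ⊆ Y → c t = i :=
  Pool.Agent.Lib.MP_dc3585_lc.both_classes hS

end Pool.Agent.Results.MP_dc3585_lc.TriplesBothClasses
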